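import Pool.Agent.Helper47.EP.Goals

/-! Project EP (MP_5b9a11_al), packet EP-SIM (helper25). -/

set_option autoImplicit false

namespace Pool.Agent.Helper25.EP.SIM

open MonoidAlgebra Pool.Agent.Helper47.EP

variable {p : ℕ} {T : Dat p} {A : Type} [Fintype A] [DecidableEq A]

theorem Om_anti (v w : A → T.K) : Om w v = -Om v w := by
  have h := Om_self (T := T) (v + w)
  rw [Om_add_left, Om_add_right, Om_add_right, Om_self, Om_self] at h
  linear_combination h

theorem w_anti (x y : T.K) : T.w y x = -T.w x y := by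
  have h := T.alt (x + y)
  rw [map_add, map_add, AddMonoidHom.add_apply, AddMonoidHom.add_apply, T.alt, T.alt] at h
  linear_combination h

/-- all values of the form are attained -/
theorem Om_onto [Fact p.Prime] (v : A → T.K) (hv : v ≠ 0) (z : ZMod T.l) :
    ∃ w : A → T.K, Om w v = z := by
  obtain ⟨a, ha⟩ : ∃ a, v a ≠ 0 := by
    by_contra hcon
    push Not at hcon
    exact hv (funext hcon)
  obtain ⟨y, hy⟩ := T.nondeg (v a) ha
  have hc : T.w y (v a) ≠ 0 := by
    rw [w_anti]
    exact neg_ne_zero.2 hy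
  have : NeZero T.l := ⟨T.prime.ne_zero⟩
  refine ⟨Pi.single a ((z * (T.w y (v a))⁻¹).val • y), ?_⟩
  unfold Om
  rw [Finset.sum_eq_single a]
  · rw [Pi.single_eq_same, map_nsmul, AddMonoidHom.nsmul_apply, nsmul_eq_mul,
      ZMod.natCast_zmod_val, mul_assoc, inv_mul_cancel₀ hc, mul_one]
  · intro b _ hb
    rw [Pi.single_eq_of_ne hb, map_zero]
    rfl
  · intro h
    exact absurd (Finset.mem_univ a) h

variable {F : Type} [Field F]

theorem l_ne (C : Chr T F) : (T.l : F) ≠ 0 := by
  intro h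
  have := C.il_mul
  rw [h, mul_zero] at this
  exact zero_ne_one this

theorem il_ne (C : Chr T F) : C.il ≠ 0 := by
  intro h
  have := C.il_mul
  rw [h, zero_mul] at this
  exact zero_ne_one this

theorem exists_psi (C : Chr T F) : ∃ z : ZMod T.l, C.ψ (2 * z) ≠ 1 := by
  by_contra hcon
  push Not at hcon
  have h2 : (2 : ZMod T.l) ≠ 0 := by
    intro h
    have h1 : ((2 : ℕ) : ZMod T.l) = 0 := by exact_mod_cast h
    rw [ZMod.natCast_eq_zero_iff] at h1
    exact T.ne2 ((Nat.prime_dvd_prime_iff_eq T.prime Nat.prime_two).1 h1)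
  have h3 := C.sum_zero 2 h2
  rw [Finset.sum_congr rfl fun z _ => hcon z, Finset.sum_const, Finset.card_univ, ZMod.card,
    nsmul_eq_mul, mul_one] at h3
  exact l_ne C h3

/-- a suitable `w` -/
theorem exists_w [Fact p.Prime] (C : Chr T F) (v : A → T.K) (hv : v ≠ 0) :
    ∃ w : A → T.K, C.ψ (2 * Om w v) ≠ 1 := by
  obtain ⟨z, hz⟩ := exists_psi C
  obtain ⟨w, hw⟩ := Om_onto v hv z
  exact ⟨w, by rw [hw]; exact hz⟩

theorem sum_psi [Fact p.Prime] (C : Chr T F) (v : A → T.K) (hv : v ≠ 0) :
    ∑ w : A → T.K, C.ψ (2 * Om w v) = 0 := by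
  obtain ⟨w₀, hw₀⟩ := exists_w C v hv
  have h1 : ∑ w : A → T.K, C.ψ (2 * Om w v) =
      C.ψ (2 * Om w₀ v) * ∑ w : A → T.K, C.ψ (2 * Om w v) := by
    rw [Finset.mul_sum]
    refine (Fintype.sum_equiv (Equiv.addLeft w₀) _ _ fun w => ?_).symm
    rw [Equiv.coe_addLeft, Om_add_left, mul_add, AddChar.map_add_eq_mul]
  have h2 : (C.ψ (2 * Om w₀ v) - 1) * ∑ w : A → T.K, C.ψ (2 * Om w v) = 0 := by
    linear_combination -h1
  rcases mul_eq_zero.1 h2 with h3 | h3
  · exact absurd (sub_eq_zero.1 h3) hw₀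
  · exact h3

theorem ev_zero (C : Chr T F) : ev C (0 : A → T.K) = ee C A := by
  unfold ev
  have : (⟨0, 0⟩ : Hs T A) = 1 := rfl
  rw [this, ← MonoidAlgebra.one_def, one_mul]

theorem ev_sand [Fact p.Prime] (hB : S_HB) (C : Chr T F) (w u : A → T.K) :
    ev C w * ev C u * ev C (-w) = C.ψ (2 * Om w u) • ev C u := by
  obtain ⟨-, -, -, h4, -, -, -⟩ := hB p T A F C
  rw [h4, smul_mul_assoc, h4, smul_smul, ← AddChar.map_add_eq_mul, add_neg_cancel_comm]
  congr 2
  rw [Om_neg_right, Om_add_left, Om_self, Om_anti w u]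
  ring

/-- **SIM** -/
theorem t (hB : S_HB) : S_SIM := by
  intro p _ T A _ _ F _ C
  obtain ⟨h1, h2, h3, h4, h5, h6, -⟩ := hB p T A F C
  refine ⟨?_, ?_⟩
  · intro x hx hcomm
    have hx6 := h6 x hx
    set c : (A → T.K) → F := fun v => (T.l : F) * x.coeff ⟨v, 0⟩ with hc
    have hx7 : x = ∑ v, c v • ev C v := hx6
    -- coefficients
    have hcoef : ∀ (d : (A → T.K) → F) (s v : A → T.K),
        (∑ u, d u • ev C (u + s)).coeff ⟨v + s, 0⟩ = d v * C.il := by
      intro d s v
      rw [MonoidAlgebra.coeff_sum, Finsupp.finsetSum_apply, Finset.sum_eq_single v]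
      · rw [MonoidAlgebra.coeff_smul, Finsupp.smul_apply, h5, if_pos rfl, neg_zero,
          AddChar.map_zero_eq_one, mul_one, smul_eq_mul]
      · intro u _ hu
        rw [MonoidAlgebra.coeff_smul, Finsupp.smul_apply, h5, if_neg, smul_zero]
        intro h
        exact hu (add_right_cancel h).symm
      · intro h
        exact absurd (Finset.mem_univ v) h
    have hcv : ∀ v, v ≠ 0 → c v = 0 := by
      intro v hv
      obtain ⟨w, hw⟩ := exists_w C v hv
      have e1 : ev C w * x = ∑ u, (c u * C.ψ (Om w u)) • ev C (u + w) := by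
        rw [hx7, Finset.mul_sum]
        refine Finset.sum_congr rfl fun u _ => ?_
        rw [mul_smul_comm, h4, smul_smul, add_comm w u]
      have e2 : x * ev C w = ∑ u, (c u * C.ψ (Om u w)) • ev C (u + w) := by
        rw [hx7, Finset.sum_mul]
        refine Finset.sum_congr rfl fun u _ => ?_
        rw [smul_mul_assoc, h4, smul_smul]
      have e3 := hcomm w
      rw [e1, e2] at e3
      have e4 := congrArg (fun y : MonoidAlgebra F (Hs T A) => y.coeff ⟨v + w, 0⟩) e3
      simp only [hcoef] at e4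
      have e5 : c v * C.ψ (Om w v) = c v * C.ψ (Om v w) := mul_right_cancel₀ (il_ne C) e4
      by_contra h0
      have e6 : C.ψ (Om w v) = C.ψ (Om v w) := mul_left_cancel₀ h0 e5
      apply hw
      have e7 : C.ψ (Om v w) * C.ψ (Om w v) = 1 := by
        rw [← AddChar.map_add_eq_mul, Om_anti v w, add_neg_cancel, AddChar.map_zero_eq_one]
      rw [two_mul, AddChar.map_add_eq_mul]
      rw [← e6] at e7
      exact e7
    refine ⟨c 0, ?_⟩
    rw [hx7, Finset.sum_eq_single 0]
    · rw [ev_zero]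
    · intro v _ hv
      rw [hcv v hv, zero_smul]
    · intro h
      exact absurd (Finset.mem_univ _) h
  · intro x hx hx0
    have hx6 := h6 x hx
    set c : (A → T.K) → F := fun v => (T.l : F) * x.coeff ⟨v, 0⟩ with hc
    have hx7 : x = ∑ v, c v • ev C v := hx6
    obtain ⟨v, hv⟩ : ∃ v, c v ≠ 0 := by
      by_contra hcon
      push Not at hcon
      apply hx0
      rw [hx7]
      exact Finset.sum_eq_zero fun v _ => by rw [hcon v, zero_smul]
    have hcard : (Fintype.card (A → T.K) : F) ≠ 0 := by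
      rw [Fintype.card_fun, T.card]
      push_cast
      exact pow_ne_zero _ (pow_ne_zero _ (l_ne C))
    set m : F := ((Fintype.card (A → T.K) : F) * c v)⁻¹ with hm
    refine ⟨fun w => m • ev C w, fun w => ev C (-v) * ev C (-w), ?_⟩
    have e1 : x * ev C (-v) = ∑ u, (c u * C.ψ (Om u (-v))) • ev C (u + -v) := by
      rw [hx7, Finset.sum_mul]
      refine Finset.sum_congr rfl fun u _ => ?_
      rw [smul_mul_assoc, h4, smul_smul]
    have e2 : ∀ w, (m • ev C w) * x * (ev C (-v) * ev C (-w)) =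
        m • ∑ u, (c u * C.ψ (Om u (-v))) • (C.ψ (2 * Om w (u + -v)) • ev C (u + -v)) := by
      intro w
      have e3 : (m • ev C w) * x * (ev C (-v) * ev C (-w)) =
          m • (ev C w * (x * ev C (-v)) * ev C (-w)) := by
        rw [smul_mul_assoc, smul_mul_assoc]
        congr 1
        simp only [mul_assoc]
      rw [e3, e1, Finset.mul_sum, Finset.sum_mul]
      congr 1
      refine Finset.sum_congr rfl fun u _ => ?_
      rw [mul_smul_comm, smul_mul_assoc, ev_sand hB C]
    rw [Finset.sum_congr rfl fun w _ => e2 w, ← Finset.smul_sum, Finset.sum_comm]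
    have e4 : ∀ u : A → T.K, ∑ w : A → T.K,
        (c u * C.ψ (Om u (-v))) • (C.ψ (2 * Om w (u + -v)) • ev C (u + -v)) =
        ((c u * C.ψ (Om u (-v))) * ∑ w : A → T.K, C.ψ (2 * Om w (u + -v))) • ev C (u + -v) := by
      intro u
      rw [← Finset.smul_sum, ← Finset.sum_smul, smul_smul]
    rw [Finset.sum_congr rfl fun u _ => e4 u, Finset.sum_eq_single v]
    · rw [add_neg_cancel, ev_zero, smul_smul, Om_neg_right, Om_self, neg_zero,
        AddChar.map_zero_eq_one, mul_one]
      have e5 : ∑ w : A → T.K, C.ψ (2 * Om w (0 : A → T.K)) = (Fintype.card (A → T.K) : F) := by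
        rw [Finset.sum_congr rfl fun w _ => by
          rw [Om_zero_right, mul_zero, AddChar.map_zero_eq_one], Finset.sum_const,
          Finset.card_univ, nsmul_eq_mul, mul_one]
      rw [e5, hm, mul_comm (c v), inv_mul_cancel₀ (mul_ne_zero hcard hv), one_smul]
    · intro u _ hu
      rw [sum_psi C (u + -v) (by
        intro h
        exact hu (add_neg_eq_zero.1 h)), mul_zero, zero_smul]
    · intro h
      exact absurd (Finset.mem_univ _) h

end Pool.Agent.Helper25.EP.SIM
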